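import Pool.Agent.U84.AWQ.Stm

/-! Project AWQ (helper84), package DESC: the descent. -/

set_option autoImplicit false

namespace Pool.Agent.U492.AWQ

open Pool.Agent.R456.CL Pool.Agent.U84.AWQ

universe u

section basics

variable {A : Type u} [CStarAlgebra A]

theorem CP.idem {z : A} (hz : CP z) : z * z = z := hz.1.isIdempotentElem

theorem CP.star {z : A} (hz : CP z) : star z = z := hz.1.isSelfAdjoint

/-- product with a central projection -/
theorem cmul {m : A} (hm : CP m) (a b : A) : (m * a) * (m * b) = m * (a * b) := by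
  calc (m * a) * (m * b) = m * (a * m) * b := by simp only [mul_assoc]
    _ = m * (m * a) * b := by rw [← hm.2 a]
    _ = (m * m) * (a * b) := by simp only [mul_assoc]
    _ = m * (a * b) := by rw [CP.idem hm]

theorem star_cmul {m : A} (hm : CP m) (a : A) : Star.star (m * a) = m * Star.star a := by
  rw [star_mul, CP.star hm, hm.2]

theorem PJ_mul {m p : A} (hm : CP m) (hp : PJ p) : PJ (m * p) := by
  refine ⟨?_, ?_⟩
  · show m * p * (m * p) = m * p
    rw [cmul hm, hp.isIdempotentElem.eq]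
  · show Star.star (m * p) = m * p
    rw [star_cmul hm, hp.isSelfAdjoint.star_eq]

theorem CP_mul {m n : A} (hm : CP m) (hn : CP n) : CP (m * n) := by
  refine ⟨PJ_mul hm hn.1, fun x => ?_⟩
  calc m * n * x = m * (n * x) := mul_assoc _ _ _
    _ = m * (x * n) := by rw [hn.2]
    _ = (m * x) * n := (mul_assoc _ _ _).symm
    _ = (x * m) * n := by rw [hm.2]
    _ = x * (m * n) := mul_assoc _ _ _

theorem PI_mul {m g : A} (hm : CP m) (hg : PI g) : PI (m * g) := by
  refine ⟨PJ_mul hm hg.1, fun v hv h => ?_⟩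
  rw [← mul_assoc] at h ⊢
  exact hg.2 _ (CP_mul hv hm) h

theorem Eqv_mul {m p q : A} (hm : CP m) (h : Eqv p q) : Eqv (m * p) (m * q) := by
  obtain ⟨v, h1, h2⟩ := h
  refine ⟨m * v, ?_, ?_⟩
  · rw [star_cmul hm, cmul hm, h1]
  · rw [star_cmul hm, cmul hm, h2]

theorem Sub_mul {m p q : A} (hm : CP m) (h : Sub p q) : Sub (m * p) (m * q) := by
  obtain ⟨v, h1, h2⟩ := h
  refine ⟨m * v, ?_, ?_⟩
  · rw [star_cmul hm, cmul hm, h1]
  · rw [star_cmul hm, cmul hm, cmul hm, h2]

theorem IsSup_mul {ι : Type*} {q : ι → A} {m E : A} (hm : CP m) (h : IsSup q E) :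
    IsSup (fun i => m * q i) (m * E) := by
  refine ⟨PJ_mul hm h.1, fun i => ?_, fun x hx => ?_⟩
  · rw [cmul hm, h.2.1 i]
  · rw [← mul_assoc]
    refine h.2.2 (x * m) fun i => ?_
    rw [mul_assoc]
    exact hx i

/-- the pairs of the descent -/
structure Good (T z w g : A) : Prop where
  cp : CP w
  ne : w ≠ 0
  le : w * z = w
  pi : PI g
  lg : Le g w
  comm : T * g = g * T
  full : ∀ v : A, CP v → v * w = v → v ≠ 0 → v * g ≠ 0
  cb : CB (w - g) T

/-- the next pair -/
structure Child (T w g w' h : A) : Prop where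
  cp : CP w'
  ne : w' ≠ 0
  le : w' * w = w'
  pi : PI h
  lg : Le h (w' * g)
  comm : T * h = h * T
  full : ∀ v : A, CP v → v * w' = v → v ≠ 0 → v * h ≠ 0
  cb : CB (w' - h) T
  small : Small (w' * g) h

/-- a large family for a child -/
def Fam (w' g h v : A) (ι : Type u) : Prop :=
  ∃ (q : ι → A) (E : A), Infinite ι ∧ (∀ i, PJ (q i)) ∧ (∀ i j, i ≠ j → q i * q j = 0) ∧
    (∀ i, Le (q i) (v * (w' * g))) ∧ (∀ i, Eqv (v * h) (q i)) ∧ IsSup q E ∧
    Sub (v * (w' * g) - E) (v * h)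

/-- the data whose cardinal is minimised -/
def Data (T z w g w' h v : A) (ι : Type u) : Prop :=
  Good T z w g ∧ Child T w g w' h ∧ CP v ∧ v * (w' * g) ≠ 0 ∧ Fam w' g h v ι

theorem Child.le_w' {T w g w' h : A} (hc : Child T w g w' h) : h * w' = h := by
  have h1 : h * (w' * g) = h := hc.lg
  calc h * w' = h * (w' * g) * w' := by rw [h1]
    _ = h * (w' * (g * w')) := by simp only [mul_assoc]
    _ = h * (w' * (w' * g)) := by rw [hc.cp.2 g]
    _ = h * ((w' * w') * g) := by simp only [mul_assoc]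
    _ = h * (w' * g) := by rw [CP.idem hc.cp]
    _ = h := h1

/-- every good pair has a child with a large family -/
theorem next (hS : PStep A) (hW : PW1L A) {T z : A} (hno : ∀ z' : A, CP z' → z' ≠ 0 → z' * z = z' →
    ¬ (DA T z' ∨ DB T z')) {w g : A} (hG : Good T z w g) :
    ∃ (w' h v : A) (ι : Type u), Data T z w g w' h v ι := by
  obtain ⟨w', h1, h2, h3, h4⟩ := hS T w g hG.cp hG.ne hG.pi hG.lg hG.comm hG.full hG.cb
  have hwz : w' * z = w' := by
    calc w' * z = w' * w * z := by rw [h3]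
      _ = w' * (w * z) := mul_assoc _ _ _
      _ = w' := by rw [hG.le, h3]
  have h5 := hno w' h1 h2 hwz
  rw [← or_assoc] at h4
  obtain ⟨h, p1, p2, p3, p4, p5, p6⟩ := h4.resolve_left h5
  have hC : Child T w g w' h := ⟨h1, h2, h3, p1, p2, p3, p4, p5, p6⟩
  have hg0 : w' * g ≠ 0 := hG.full w' h1 h3 h2
  obtain ⟨v, q1, q2, ι, q, E, q3, q4, q5, q6, q7, q8, q9⟩ := hW (w' * g) h (PI_mul h1 hG.pi) p1 p2 p6 hg0 (by
    intro v hv hne hvh
    have h6 : v * w' ≠ 0 := by
      intro h7
      apply hne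
      rw [← mul_assoc, h7, zero_mul]
    have h8 : v * w' * w' = v * w' := by rw [mul_assoc, CP.idem h1]
    apply p4 (v * w') (CP_mul hv h1) h8 h6
    calc v * w' * h = v * (w' * h) := mul_assoc _ _ _
      _ = v * (h * w') := by rw [h1.2 h]
      _ = (v * h) * w' := (mul_assoc _ _ _).symm
      _ = 0 := by rw [hvh, zero_mul])
  exact ⟨w', h, v, ι, hG, hC, q1, q2, q, E, q3, q4, q5, q6, q7, q8, q9⟩

/-- from a child to a good pair -/
theorem good_child (hCB : PCB A) {T z w g w' h v : A} (hG : Good T z w g) (hC : Child T w g w' h)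
    (hv : CP v) (hne : v * (w' * g) ≠ 0) : Good T z (v * w') (v * h) := by
  have hwz : w' * z = w' := by
    calc w' * z = w' * w * z := by rw [hC.le]
      _ = w' * (w * z) := mul_assoc _ _ _
      _ = w' := by rw [hG.le, hC.le]
  have hhw := hC.le_w'
  refine ⟨CP_mul hv hC.cp, ?_, ?_, PI_mul hv hC.pi, ?_, ?_, ?_, ?_⟩
  · intro h0
    apply hne
    rw [← mul_assoc, h0, zero_mul]
  · rw [mul_assoc, hwz]
  · show v * h * (v * w') = v * h
    rw [cmul hv, hhw]
  · calc T * (v * h) = (T * v) * h := (mul_assoc _ _ _).symm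
      _ = (v * T) * h := by rw [hv.2 T]
      _ = v * (T * h) := mul_assoc _ _ _
      _ = v * (h * T) := by rw [hC.comm]
      _ = v * h * T := (mul_assoc _ _ _).symm
  · intro x hx hxv hx0
    have e1 : x * v = x := by
      calc x * v = x * (v * w') * v := by rw [hxv]
        _ = x * (v * (w' * v)) := by simp only [mul_assoc]
        _ = x * (v * (v * w')) := by rw [hv.2 w']
        _ = x * ((v * v) * w') := by simp only [mul_assoc]
        _ = x * (v * w') := by rw [CP.idem hv]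
        _ = x := hxv
    have e2 : x * w' = x := by
      calc x * w' = x * (v * w') * w' := by rw [hxv]
        _ = x * (v * (w' * w')) := by simp only [mul_assoc]
        _ = x * (v * w') := by rw [CP.idem hC.cp]
        _ = x := hxv
    rw [← mul_assoc, e1]
    exact hC.full x hx e2 hx0
  · have e3 : v * w' - v * h = v * (w' - h) := (mul_sub _ _ _).symm
    rw [e3]
    refine hCB.2.1 _ _ _ hv ?_ hC.cb
    have hwh : w' * h = h := by rw [hC.cp.2 h, hhw]
    refine ⟨?_, ?_⟩
    · show (w' - h) * (w' - h) = w' - h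
      rw [mul_sub, sub_mul, sub_mul, CP.idem hC.cp, hwh, hhw, hC.pi.1.isIdempotentElem.eq]
      abel
    · show Star.star (w' - h) = w' - h
      rw [star_sub, CP.star hC.cp, hC.pi.1.isSelfAdjoint.star_eq]

end basics

theorem t_DESC : S_DESC.{u} := by
  intro A _ hCB hS hW1 hW2 hPI T z hz hz0
  by_contra hcon
  have hno : ∀ z' : A, CP z' → z' ≠ 0 → z' * z = z' → ¬ (DA T z' ∨ DB T z') := by
    intro z' h1 h2 h3 h4
    exact hcon ⟨z', h1, h2, h3, h4⟩
  -- the first pair
  have hG0 : Good T z z z := by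
    refine ⟨hz, hz0, CP.idem hz, ?_, CP.idem hz, (hz.2 T).symm, ?_, ?_⟩
    · have := PI_mul hz hPI
      rwa [mul_one] at this
    · intro v _ hv hv0
      rw [hv]
      exact hv0
    · rw [sub_self]
      refine ⟨0, 0, ?_, ?_, ?_, ?_, ?_, ?_, ?_, ?_, ?_⟩ <;> simp
  obtain ⟨w₀, h₀, v₀, ι₀, hD₀⟩ := next hS hW1 hno hG0
  -- the minimal cardinal
  set S : Set Cardinal.{u} := {κ | ∃ (w g w' h v : A) (ι : Type u), Data T z w g w' h v ι ∧ Cardinal.mk ι = κ} with hSdef
  have hne : S.Nonempty := ⟨Cardinal.mk ι₀, z, z, w₀, h₀, v₀, ι₀, hD₀, rfl⟩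
  obtain ⟨κ, hκ, hmin⟩ := Cardinal.lt_wf.has_min S hne
  obtain ⟨w, g, w', h, v, ι, ⟨hG, hC, hv, hvg, q, E, q3, q4, q5, q6, q7, q8, q9⟩, hικ⟩ := hκ
  have hG1 := good_child hCB hG hC hv hvg
  obtain ⟨w3, h3, v4, ι', hD⟩ := next hS hW1 hno hG1
  have hle : Cardinal.mk ι ≤ Cardinal.mk ι' := by
    rw [hικ]
    exact not_lt.mp (hmin _ ⟨_, _, _, _, _, _, hD, rfl⟩)
  obtain ⟨-, hC3, hv4, hvg4, q', E', r3, r4, r5, r6, r7, r8, r9⟩ := hD
  -- the central projection `m`
  set m : A := v4 * w3 with hm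
  have hmc : CP m := CP_mul hv4 hC3.cp
  have hmvw : m * (v * w') = m := by
    rw [hm, mul_assoc, hC3.le]
  have hmv : m * v = m := by
    calc m * v = m * (v * w') * v := by rw [hmvw]
      _ = m * (v * (w' * v)) := by simp only [mul_assoc]
      _ = m * (v * (v * w')) := by rw [hv.2 w']
      _ = m * ((v * v) * w') := by simp only [mul_assoc]
      _ = m * (v * w') := by rw [CP.idem hv]
      _ = m := hmvw
  have hmw : m * w' = m := by
    calc m * w' = m * (v * w') * w' := by rw [hmvw]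
      _ = m * (v * (w' * w')) := by simp only [mul_assoc]
      _ = m * (v * w') := by rw [CP.idem hC.cp]
      _ = m := hmvw
  have e1 : m * (v * (w' * g)) = m * g := by rw [← mul_assoc, hmv, ← mul_assoc, hmw]
  have e2 : m * (v * h) = m * h := by rw [← mul_assoc, hmv]
  have e3 : v4 * (w3 * (v * h)) = m * h := by
    rw [← mul_assoc, ← hm, e2]
  have e4 : v4 * h3 = m * h3 := by
    rw [hm, mul_assoc, hC3.cp.2 h3, hC3.le_w']
  have hmh0 : m * h ≠ 0 := by rw [← e3]; exact hvg4
  have hmg0 : m * (w' * g) ≠ 0 := by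
    intro h0
    apply hmh0
    have h5 : h * (w' * g) = h := hC.lg
    calc m * h = m * (h * (w' * g)) := by rw [h5]
      _ = (m * h) * (w' * g) := (mul_assoc _ _ _).symm
      _ = (h * m) * (w' * g) := by rw [hmc.2 h]
      _ = h * (m * (w' * g)) := mul_assoc _ _ _
      _ = 0 := by rw [h0, mul_zero]
  -- first family
  have f6 : ∀ i, Le (m * q i) (m * g) := by
    intro i
    show m * q i * (m * g) = m * q i
    have h6 : q i * (v * (w' * g)) = q i := q6 i
    rw [← e1, cmul hmc, h6]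
  have f7 : ∀ i, Eqv (m * h) (m * q i) := by
    intro i
    have := Eqv_mul hmc (q7 i)
    rwa [e2] at this
  have f9 : Sub (m * g - m * E) (m * h) := by
    have := Sub_mul hmc q9
    rwa [mul_sub, e1, e2] at this
  have f5 : ∀ i j, i ≠ j → (m * q i) * (m * q j) = 0 := by
    intro i j hij
    rw [cmul hmc, q5 i j hij, mul_zero]
  rw [e3] at r9
  rw [e4] at r9
  have r6' : ∀ i, Le (q' i) (m * h) := by
    intro i
    have := r6 i
    rwa [e3] at this
  have r7' : ∀ i, Eqv (m * h3) (q' i) := by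
    intro i
    have := r7 i
    rwa [e4] at this
  have hfin := hW2 (m * g) (m * h) (m * h3) ι ι' (fun i => m * q i) (m * E) q' E'
    (PJ_mul hmc hG.pi.1) (PJ_mul hmc hC.pi.1) (PJ_mul hmc hC3.pi.1) q3 r3
    (fun i => PJ_mul hmc (q4 i)) f5 f6 f7 (IsSup_mul hmc q8) f9 r4 r5 r6' r7' r8 r9 hle
  apply hC.small m hmc hmg0
  have e5 : m * (w' * g) = m * g := by rw [← mul_assoc, hmw]
  rw [e5]
  exact hfin

end Pool.Agent.U492.AWQ
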